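import Pool.Agent.H40.EGD.Targets

/-!
# STEP D, row DIR: conditions on the direction
-/

set_option autoImplicit false

namespace Pool.Agent.H64.EGD

open MeasureTheory Set Metric Filter Topology
open Pool.Agent.H93.BL
open Pool.Agent.H40.EGD

theorem DIR_prod (a b : ℝ) (hab : a < b) (A : Set ℝ) :
    (volume : Measure (ℝ × ℝ)) (Ioo a b ×ˢ A) = 0 ↔ volume A = 0 := by
  have h : (volume : Measure (ℝ × ℝ)) (Ioo a b ×ˢ A) = volume (Ioo a b) * volume A :=
    Measure.prod_prod _ _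
  rw [h, mul_eq_zero]
  constructor
  · rintro (h1 | h1)
    · exfalso
      rw [Real.volume_Ioo, ENNReal.ofReal_eq_zero] at h1
      linarith
    · exact h1
  · exact Or.inr

theorem DIR_first (hM0 : T_M0) (ι : Type) (P : Polygon ι) (i : ι) (W : Set ℂ) :
    ((∀ᵐ z ∂(P.liouville i), P.dir (i, z) ∈ W) ↔
    ∀ᵐ φ : ℝ, φ ∈ Ioo (-(Real.pi / 2)) (Real.pi / 2) →
      Complex.I * P.u i * Complex.exp ((φ : ℂ) * Complex.I) ∈ W) := by
  rw [ae_iff, ae_iff, (hM0 ι P i _).1]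
  have h : {z : ℝ × ℝ | ¬ P.dir (i, z) ∈ W} ∩ P.box i =
      Ioo 0 (P.len i) ×ˢ {φ : ℝ | ¬ (φ ∈ Ioo (-(Real.pi / 2)) (Real.pi / 2) →
        Complex.I * P.u i * Complex.exp ((φ : ℂ) * Complex.I) ∈ W)} := by
    ext ⟨s, φ⟩
    have hd : P.dir (i, (s, φ)) = Complex.I * P.u i * Complex.exp ((φ : ℂ) * Complex.I) := rfl
    simp only [mem_inter_iff, mem_prod, Set.mem_ofPred_eq, hd, Polygon.box, Classical.not_imp]
    tauto
  rw [h]
  exact DIR_prod 0 (P.len i) (P.len_pos i) _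

theorem DIR (hM0 : T_M0) : T_DIR := by
  intro ι P i W
  refine ⟨DIR_first hM0 ι P i W, fun hW => ?_⟩
  rw [DIR_first hM0 ι P i W]
  have hn : ‖Complex.I * P.u i‖ = 1 := by
    rw [norm_mul, Complex.norm_I, P.norm_u, one_mul]
  obtain ⟨β, hβ⟩ : ∃ β : ℝ, Complex.exp ((β : ℂ) * Complex.I) = Complex.I * P.u i := by
    refine ⟨Complex.arg (Complex.I * P.u i), ?_⟩
    have h := Complex.norm_mul_exp_arg_mul_I (Complex.I * P.u i)
    rwa [hn, Complex.ofReal_one, one_mul] at h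
  have h1 : ∀ᵐ φ : ℝ, Complex.exp (((φ + β : ℝ) : ℂ) * Complex.I) ∈ W :=
    (measurePreserving_add_right (volume : Measure ℝ) β).quasiMeasurePreserving.ae hW
  filter_upwards [h1] with φ hφ _
  have h2 : Complex.exp (((φ + β : ℝ) : ℂ) * Complex.I) =
      Complex.I * P.u i * Complex.exp ((φ : ℂ) * Complex.I) := by
    rw [← hβ, ← Complex.exp_add]
    congr 1
    push_cast
    ring
  rw [← h2]
  exact hφ

end Pool.Agent.H64.EGD
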